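import Pool.Agent.Lib.MP_b5021c_nt.E2.H80.Psz2
import Pool.Agent.Lib.MP_b5021c_nt.E2.H65.Tro

/-!
# MP_b5021c_nt, E2 for all `θ ≥ 2` over `ℤ`: the terminal cases TRE and TRO
-/

namespace Pool.Agent.B5.Nr.E2

open scoped LaurentPolynomial Topology
open Polynomial Pool.Agent.B5
open Pool.Agent.B5.H65 (pmn_sum rsh_coeff0)

theorem trez (hTrm : TrmS) (hPsz : PszRS) (hPmf : PmfS) (hSnr : SnrS) (hE2 : E2S)
    (hEv : EvRS) : TrezS := by
  intro P L _ _ _ _ _ phi D S eta θ hDD hrk hS hθ hP hA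
  obtain ⟨hEv1, hEv2, hEv3, hEv4⟩ := hEv ℤ
  obtain ⟨hQ0, -, -, -, -, hray⟩ := hE2 ℤ P L phi D hDD hrk
  obtain ⟨hle, -⟩ := hray S hS
  obtain ⟨i0, n, f, T, hT0, hTn, hrank, hsum⟩ := hTrm ℤ P L phi D S eta θ hDD hrk hS hP hA
  set Q : RO ℤ := D.coeff 0 with hQ
  set V : RO ℤ := D.coeff 0 + (eta : RO ℤ) * D.coeff S with hV
  have hVQ : ∀ z : Circle, ‖evR z (V - Q)‖ ≤ ‖evR z Q‖ := by
    intro z
    have h1 : V - Q = (eta : RO ℤ) * D.coeff S := by rw [hV, hQ]; ring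
    rw [h1, map_mul, norm_mul, hEv2 z _ eta.isUnit, one_mul]
    exact hle z
  have hrs : rsh (∑ i, (T i).coeff 0) = ∑ i, (T i).coeff 0 := by
    rw [map_sum]
    exact Finset.sum_congr rfl fun i _ => rsh_coeff0 (T i) (hTn i).1
  obtain ⟨a, m, t, ha, hpar, hmain⟩ := hPsz θ Q V (∑ i, (T i).coeff 0) hP hQ0 hA hVQ hrs hsum
  have hθ0 : (0 : ℝ) < θ := by linarith
  have ha2 : |a| ≤ 1 / 2 := by
    rw [ha, inv_eq_one_div]
    exact one_div_le_one_div_of_le (by norm_num) hθ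
  have hna : ‖(a : ℂ)‖ = |a| := by rw [Complex.norm_real, Real.norm_eq_abs]
  have ha1 : ‖(a : ℂ)‖ < 1 := by rw [hna]; linarith
  have ha0 : 0 ≤ |a| := abs_nonneg a
  rw [pmn_sum hEv1 (a : ℂ) ha1] at hmain
  have hsn : ∀ i, 1 + (rk (supp (T i)) : ℝ) ≤ pmn (a : ℂ) ((T i).coeff 0) := fun i =>
    (hSnr (Ker (f i)) (T i) a ha2 (hT0 i) (hTn i)).1
  -- the constant coefficients
  have hc0 : ∀ i, 1 + (rk (supp (T i)) : ℤ) ≤ ((T i).coeff 0).coeff 0 := by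
    intro i
    have h1 := (hSnr (Ker (f i)) (T i) 0 (by norm_num) (hT0 i) (hTn i)).1
    rw [Complex.ofReal_zero] at h1
    obtain ⟨r, hr0, -, hr1, -⟩ := hPmf ℤ ((T i).coeff 0) 0 (by norm_num)
      (rsh_coeff0 (T i) (hTn i).1)
    rw [hr1, ← Polynomial.coeff_zero_eq_eval_zero, hr0] at h1
    have h2 : (Coef.emb (((T i).coeff 0).coeff 0) : ℂ) = ((((T i).coeff 0).coeff 0 : ℤ) : ℂ) := by
      change (Int.castRingHom ℂ) _ = _
      exact eq_intCast _ _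
    rw [h2, Complex.intCast_re] at h1
    exact_mod_cast h1
  have hr0 : (∑ i, (T i).coeff 0).coeff 0 = ∑ i, ((T i).coeff 0).coeff 0 := by
    simp
  rw [hr0] at hpar
  have h2θ : 2 * (θ - θ⁻¹) = 2 * θ - 2 * |a| := by rw [ha]; ring
  rw [h2θ] at hmain
  have hfr : (1 - 2 * |a|) ≤ (1 - |a|) / (1 + |a|) := by
    rw [le_div_iff₀ (by linarith)]
    nlinarith
  have hm0 : (0 : ℝ) ≤ (m : ℝ) := Nat.cast_nonneg m
  have hfr0 : 0 ≤ (1 - |a|) / (1 + |a|) := div_nonneg (by linarith) (by linarith)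
  have h6 : ∑ i, (1 + (rk (supp (T i)) : ℝ)) ≤ ∑ i, pmn (a : ℂ) ((T i).coeff 0) :=
    Finset.sum_le_sum fun i _ => hsn i
  set Sg : ℕ := ∑ i, (1 + rk (supp (T i))) with hSg
  have hSgR : ∑ i, (1 + (rk (supp (T i)) : ℝ)) = (Sg : ℝ) := by
    rw [hSg]; push_cast; rfl
  have hSgZ : ∑ i, (1 + (rk (supp (T i)) : ℤ)) = (Sg : ℤ) := by
    rw [hSg]; push_cast; rfl
  rw [hSgR] at h6
  have h5 : (Module.finrank ℤ L : ℝ) ≤ 1 + (Sg : ℝ) := by
    rw [← hSgR]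
    exact_mod_cast hrank
  refine ⟨?_, fun hodd => ?_⟩
  · rw [h2θ]
    have h8 : 0 ≤ (1 - |a|) / (1 + |a|) * (m : ℝ) := mul_nonneg hfr0 hm0
    linarith
  rcases Nat.lt_or_ge Sg (Module.finrank ℤ L) with hlt | hge
  · have hd : Module.finrank ℤ L = 1 + Sg := by omega
    have hdR : (Module.finrank ℤ L : ℝ) = 1 + (Sg : ℝ) := by rw [hd]; push_cast; rfl
    rcases Nat.eq_zero_or_pos m with hm | hm
    · -- m = 0
      have h7 : ∃ i, 2 + (rk (supp (T i)) : ℤ) ≤ ((T i).coeff 0).coeff 0 := by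
        by_contra hno
        push Not at hno
        have h8 : ∑ i, ((T i).coeff 0).coeff 0 = ∑ i, (1 + (rk (supp (T i)) : ℤ)) := by
          refine Finset.sum_congr rfl fun i _ => ?_
          have h9 := hno i
          have h10 := hc0 i
          omega
        rw [h8, hSgZ, hm] at hpar
        obtain ⟨k, hk⟩ := hodd
        omega
      obtain ⟨i, hi⟩ := h7
      have h8 := (hSnr (Ker (f i)) (T i) a ha2 (hT0 i) (hTn i)).2 hi
      have h9 : (Sg : ℝ) + (1 - 2 * |a|) ≤ ∑ j, pmn (a : ℂ) ((T j).coeff 0) := by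
        rw [← hSgR, ← Finset.add_sum_erase Finset.univ _ (Finset.mem_univ i),
          ← Finset.add_sum_erase Finset.univ (fun j => pmn (a : ℂ) ((T j).coeff 0)) (Finset.mem_univ i)]
        have h11 : ∑ j ∈ Finset.univ.erase i, (1 + (rk (supp (T j)) : ℝ)) ≤
            ∑ j ∈ Finset.univ.erase i, pmn (a : ℂ) ((T j).coeff 0) :=
          Finset.sum_le_sum fun j _ => hsn j
        linarith
      rw [hm, Nat.cast_zero, mul_zero] at hmain
      linarith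
    · have hm1 : (1 : ℝ) ≤ (m : ℝ) := by exact_mod_cast hm
      have h7 : (1 - |a|) / (1 + |a|) * 1 ≤ (1 - |a|) / (1 + |a|) * (m : ℝ) :=
        mul_le_mul_of_nonneg_left hm1 hfr0
      linarith
  · have h7 : (Module.finrank ℤ L : ℝ) ≤ (Sg : ℝ) := by exact_mod_cast hge
    have h8 : 0 ≤ (1 - |a|) / (1 + |a|) * (m : ℝ) := mul_nonneg hfr0 hm0
    linarith

end Pool.Agent.B5.Nr.E2
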