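import Pool.Agent.Lib.MP_b5021c_nt.E1.H80.Iface
import Pool.Agent.Lib.MP_b5021c_nt.B.H09.E2Psz

/-!
# MP_b5021c_nt, E2 for all `θ ≥ 2` over `ℤ`: the row PSZ with a real point
-/

namespace Pool.Agent.B5.Nr

open scoped LaurentPolynomial
open Polynomial Pool.Agent.B5

/-- (PSZ) over `ℤ`: parity; the point `a` is real. -/
def PszRS : Prop := ∀ (θ : ℝ) (Q V r : RO ℤ), ClassP θ Q → (∀ z : Circle, evR z Q ≠ 0) →
  TypA 1 Q V → (∀ z : Circle, ‖evR z (V - Q)‖ ≤ ‖evR z Q‖) → rsh r = r →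
    (∀ z : Circle, evR z V ≠ 0 → (evR z r).re = 2 * (evR z Q / evR z V).re - 1) →
      ∃ (a : ℝ) (m : ℕ) (t : ℤ), |a| = θ⁻¹ ∧ r.coeff 0 + m = 2 * t - 1 ∧
        1 + pmn (a : ℂ) r + (1 - |a|) / (1 + |a|) * m ≤ 2 * (θ - θ⁻¹)

/-- (TREO) TERMINAL CASES over `ℤ` for all `θ ≥ 2`. -/
def TrezS : Prop := ∀ (P L : Type) [Fintype P] [DecidableEq P] [AddCommGroup L] [Module.Free ℤ L]
  [Module.Finite ℤ L] (phi : L →+ (P → ℤ)) (D : AO ℤ L) (S : L) (eta : (RO ℤ)ˣ) (θ : ℝ),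
    DD phi D → 2 ≤ Module.finrank ℤ L → Ray D S → 2 ≤ θ → ClassP θ (D.coeff 0) →
    TypA 1 (D.coeff 0) (D.coeff 0 + (eta : RO ℤ) * D.coeff S) →
      (Module.finrank ℤ L : ℝ) ≤ 2 * (θ - θ⁻¹) ∧
      (Odd (Module.finrank ℤ L) → (Module.finrank ℤ L : ℝ) + 1 ≤ 2 * θ)

end Pool.Agent.B5.Nr

namespace Pool.Agent.B5.Nr.E2

open scoped LaurentPolynomial
open Polynomial Pool.Agent.B5
open Pool.Agent.B5.H09 (nf_unique phyp_of)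

/-- The only zero in the disc of a real polynomial is real. -/
theorem real_root (q : ℤ[X]) (w : ℂ)
    (h : (q.map (Coef.emb : ℤ →+* ℂ)).roots.filter (fun x => ‖x‖ < 1) = {w}) :
    ∃ a : ℝ, (a : ℂ) = w := by
  have h1 : w ∈ (q.map (Coef.emb : ℤ →+* ℂ)).roots.filter (fun x => ‖x‖ < 1) := by
    rw [h]; exact Multiset.mem_singleton_self w
  obtain ⟨h2, h3⟩ := Multiset.mem_filter.mp h1
  have h4 : q.map (Coef.emb : ℤ →+* ℂ) ≠ 0 := fun h0 => by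
    rw [h0, roots_zero] at h2
    exact absurd h2 (Multiset.notMem_zero _)
  have h5 : (q.map (Coef.emb : ℤ →+* ℂ)).eval w = 0 := (mem_roots h4).mp h2
  have h6 : (q.map (Coef.emb : ℤ →+* ℂ)).eval ((starRingEnd ℂ) w) = 0 := by
    have h7 : (starRingEnd ℂ) ((q.map (Coef.emb : ℤ →+* ℂ)).eval w) = 0 := by rw [h5, map_zero]
    rw [eval_map] at h7 ⊢
    rw [Polynomial.hom_eval₂] at h7
    have h8 : (starRingEnd ℂ).comp (Coef.emb : ℤ →+* ℂ) = (Coef.emb : ℤ →+* ℂ) :=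
      RingHom.ext_int _ _
    rw [h8] at h7
    exact h7
  have h7 : (starRingEnd ℂ) w ∈ (q.map (Coef.emb : ℤ →+* ℂ)).roots.filter (fun x => ‖x‖ < 1) := by
    rw [Multiset.mem_filter]
    exact ⟨(mem_roots h4).mpr h6, by rwa [RCLike.norm_conj]⟩
  rw [h, Multiset.mem_singleton] at h7
  exact ⟨w.re, (Complex.conj_eq_iff_re).mp h7⟩

/-- Row E2_PSZ with a real point (copy of helper9's proof of PSZ). -/
theorem psz2 (hPso : PsoS) (hPmf : PmfS) : PszRS := by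
  intro θ Q V r hP hQ hA hVQ hr hrV
  obtain ⟨n, q, e, hQn, hVn, hq0, he0, hez⟩ := hA
  obtain ⟨hθ, n', q', hQ', hq0', w, hw, hroots⟩ := hP
  have hθ0 : (0 : ℝ) < θ := by linarith
  have hne : ∀ x : ℤ, ‖(Coef.emb x : ℂ)‖ = 1 → x ≠ 0 := by
    intro x hx h
    rw [h, map_zero, norm_zero] at hx
    exact zero_ne_one hx
  obtain ⟨-, hqq⟩ := nf_unique n n' q q' (hne _ hq0) (hne _ hq0') (by rw [← hQn, hQ'])
  subst hqq
  obtain ⟨a, rfl⟩ : ∃ a : ℝ, (a : ℂ) = w := real_root q w hroots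
  have hw0 : (a : ℂ) ≠ 0 := by
    intro h
    rw [h, norm_zero] at hw
    exact (inv_pos.mpr hθ0).ne hw
  have hwa : |a| = θ⁻¹ := by rw [← hw, Complex.norm_real, Real.norm_eq_abs]
  have hw1 : ‖(a : ℂ)‖ < 1 := by
    rw [hw]; exact inv_lt_one_of_one_lt₀ hθ
  have hph := phyp_of Q V n q e hQn hVn hez a hw0 hw1 hroots hQ hVQ
  obtain ⟨r', hr0, hre, hpmn, -⟩ := hPmf ℤ r a hw1 hr
  have hcond : ∀ z : ℂ, ‖z‖ = 1 → (e.map (Coef.emb : ℤ →+* ℂ)).eval z ≠ 0 →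
      ((2 * q.map (Coef.emb : ℤ →+* ℂ) - X * e.map (Coef.emb : ℤ →+* ℂ)).eval z /
        (z * (e.map (Coef.emb : ℤ →+* ℂ)).eval z)).re = (r'.eval z).re := by
    intro z hz hez'
    obtain ⟨zc, rfl⟩ : ∃ zc : Circle, (zc : ℂ) = z := ⟨⟨z, mem_sphere_zero_iff_norm.mpr hz⟩, rfl⟩
    obtain ⟨z, hzz⟩ : ∃ z : ℂ, z = (zc : ℂ) := ⟨_, rfl⟩
    have hz0 : z ≠ 0 := by rw [hzz]; exact Circle.coe_ne_zero zc
    rw [← hzz] at hez' ⊢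
    have hV : evR zc V = z ^ n * (z * (e.map (Coef.emb : ℤ →+* ℂ)).eval z) := by
      rw [hVn, H70.evR_T_mul, ← hzz, zpow_add₀ hz0, zpow_one, mul_assoc]
    have hQz : evR zc Q = z ^ n * (q.map (Coef.emb : ℤ →+* ℂ)).eval z := by
      rw [hQn, H70.evR_T_mul, ← hzz]
    have hzn : z ^ n ≠ 0 := zpow_ne_zero n hz0
    have hze : z * (e.map (Coef.emb : ℤ →+* ℂ)).eval z ≠ 0 := mul_ne_zero hz0 hez'
    have h3 := hrV zc (by rw [hV]; exact mul_ne_zero hzn hze)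
    rw [hre, ← hzz, hV, hQz, mul_div_mul_left _ _ hzn] at h3
    rw [h3, eval_sub, eval_mul, eval_mul, eval_X]
    have h4 : (eval z (2 : ℂ[X]) * (q.map (Coef.emb : ℤ →+* ℂ)).eval z -
        z * (e.map (Coef.emb : ℤ →+* ℂ)).eval z) / (z * (e.map (Coef.emb : ℤ →+* ℂ)).eval z) =
        2 * ((q.map (Coef.emb : ℤ →+* ℂ)).eval z / (z * (e.map (Coef.emb : ℤ →+* ℂ)).eval z)) -
          1 := by
      have : eval z (2 : ℂ[X]) = 2 := by simp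
      rw [this, sub_div, div_self hze]; ring
    rw [h4]
    simp [Complex.sub_re, Complex.mul_re]
  obtain ⟨hA1, hA2⟩ := hPso _ _ r' a 1 hph hcond
  -- coefficients
  have he2 : e.coeff 0 * e.coeff 0 = 1 := by
    have h1 : ‖((e.coeff 0 : ℤ) : ℂ)‖ = 1 := he0
    rw [Complex.norm_intCast] at h1
    have h2 : |e.coeff 0| = 1 := by exact_mod_cast h1
    rcases abs_eq (zero_le_one) |>.mp h2 with h | h <;> rw [h] <;> norm_num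
  have hc0 : (2 * q.map (Coef.emb : ℤ →+* ℂ) - X * e.map (Coef.emb : ℤ →+* ℂ)).coeff 0 =
      2 * ((q.coeff 0 : ℤ) : ℂ) := by
    rw [coeff_sub, mul_coeff_zero, mul_coeff_zero, coeff_map, coeff_X_zero, zero_mul, sub_zero]
    have : (2 : ℂ[X]).coeff 0 = 2 := by simp
    rw [this]; rfl
  have hc1 : (2 * q.map (Coef.emb : ℤ →+* ℂ) - X * e.map (Coef.emb : ℤ →+* ℂ)).coeff 1 =
      2 * ((q.coeff 1 : ℤ) : ℂ) - ((e.coeff 0 : ℤ) : ℂ) := by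
    have h2 : (2 : ℂ[X]) = C 2 := rfl
    have h3 : (X * e.map (Coef.emb : ℤ →+* ℂ)).coeff 1 = (e.map (Coef.emb : ℤ →+* ℂ)).coeff 0 :=
      coeff_X_mul _ 0
    rw [coeff_sub, h2, coeff_C_mul, coeff_map, h3, coeff_map]
    rfl
  have hd0 : (e.map (Coef.emb : ℤ →+* ℂ)).coeff 0 = ((e.coeff 0 : ℤ) : ℂ) := by
    rw [coeff_map]; rfl
  have hd1 : (e.map (Coef.emb : ℤ →+* ℂ)).coeff 1 = ((e.coeff 1 : ℤ) : ℂ) := by
    rw [coeff_map]; rfl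
  have he2c : ((e.coeff 0 : ℤ) : ℂ) ^ 2 = 1 := by
    rw [sq]; exact_mod_cast he2
  have ht0 : (((2 * q.map (Coef.emb : ℤ →+* ℂ) - X * e.map (Coef.emb : ℤ →+* ℂ)).coeff 1 *
      (e.map (Coef.emb : ℤ →+* ℂ)).coeff 0 -
      (2 * q.map (Coef.emb : ℤ →+* ℂ) - X * e.map (Coef.emb : ℤ →+* ℂ)).coeff 0 *
        (e.map (Coef.emb : ℤ →+* ℂ)).coeff 1) / (e.map (Coef.emb : ℤ →+* ℂ)).coeff 0 ^ 2).re =
      ((2 * (q.coeff 1 * e.coeff 0 - q.coeff 0 * e.coeff 1) - 1 : ℤ) : ℝ) := by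
    rw [hc0, hc1, hd0, hd1, he2c, div_one]
    have : (2 * ((q.coeff 1 : ℤ) : ℂ) - ((e.coeff 0 : ℤ) : ℂ)) * ((e.coeff 0 : ℤ) : ℂ) -
        2 * ((q.coeff 0 : ℤ) : ℂ) * ((e.coeff 1 : ℤ) : ℂ) =
        (((2 * (q.coeff 1 * e.coeff 0 - q.coeff 0 * e.coeff 1) - 1 : ℤ) : ℝ) : ℂ) := by
      have h1 : (2 * ((q.coeff 1 : ℤ) : ℂ) - ((e.coeff 0 : ℤ) : ℂ)) * ((e.coeff 0 : ℤ) : ℂ) -
        2 * ((q.coeff 0 : ℤ) : ℂ) * ((e.coeff 1 : ℤ) : ℂ) =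
        2 * (((q.coeff 1 : ℤ) : ℂ) * ((e.coeff 0 : ℤ) : ℂ) -
          ((q.coeff 0 : ℤ) : ℂ) * ((e.coeff 1 : ℤ) : ℂ)) - ((e.coeff 0 : ℤ) : ℂ) ^ 2 := by ring
      rw [h1, he2c]
      push_cast
      ring
    rw [this, Complex.ofReal_re]
  rw [ht0] at hA1 hA2
  have hr0' : (r'.eval 0).re = ((r.coeff 0 : ℤ) : ℝ) := by
    rw [← coeff_zero_eq_eval_zero, hr0]
    change (((r.coeff 0 : ℤ) : ℂ)).re = _
    simp
  rw [hr0'] at hA1 hA2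
  have hle : r.coeff 0 ≤ 2 * (q.coeff 1 * e.coeff 0 - q.coeff 0 * e.coeff 1) - 1 := by
    exact_mod_cast hA1
  obtain ⟨m, hm⟩ := Int.le.dest hle
  refine ⟨a, m, q.coeff 1 * e.coeff 0 - q.coeff 0 * e.coeff 1, hwa, hm, ?_⟩
  have hm2 : ((2 * (q.coeff 1 * e.coeff 0 - q.coeff 0 * e.coeff 1) - 1 : ℤ) : ℝ) -
      ((r.coeff 0 : ℤ) : ℝ) = (m : ℝ) := by
    rw [← hm]; push_cast; ring
  rw [hm2, Complex.norm_real, Real.norm_eq_abs] at hA2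
  rw [hpmn]
  refine hA2.trans ?_
  -- the right side
  have hval : ‖(2 * q.map (Coef.emb : ℤ →+* ℂ) - X * e.map (Coef.emb : ℤ →+* ℂ)).eval 0 /
      (e.map (Coef.emb : ℤ →+* ℂ)).eval 0 * (1 / (a : ℂ) - (starRingEnd ℂ) (a : ℂ))‖ = 2 * (θ - θ⁻¹) := by
    rw [norm_mul, norm_div, ← coeff_zero_eq_eval_zero, ← coeff_zero_eq_eval_zero, hc0, hd0,
      norm_mul]
    have h1 : ‖((q.coeff 0 : ℤ) : ℂ)‖ = 1 := hq0
    have h2 : ‖((e.coeff 0 : ℤ) : ℂ)‖ = 1 := he0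
    rw [h1, h2, Complex.norm_ofNat, mul_one, div_one]
    have h3 : 1 / (a : ℂ) - (starRingEnd ℂ) (a : ℂ) = (1 / (a : ℂ)) * ((1 - ‖(a : ℂ)‖ ^ 2 : ℝ) : ℂ) := by
      push_cast
      rw [← Complex.mul_conj']
      field_simp
    rw [h3, norm_mul, norm_div, norm_one, hw, Complex.norm_real, Real.norm_eq_abs]
    have h4 : (0 : ℝ) ≤ 1 - θ⁻¹ ^ 2 := by
      have : θ⁻¹ < 1 := inv_lt_one_of_one_lt₀ hθ
      have h5 : 0 < θ⁻¹ := inv_pos.mpr hθ0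
      nlinarith
    rw [abs_of_nonneg h4]
    field_simp
  have h5 := Complex.abs_re_le_norm ((2 * q.map (Coef.emb : ℤ →+* ℂ) -
    X * e.map (Coef.emb : ℤ →+* ℂ)).eval 0 / (e.map (Coef.emb : ℤ →+* ℂ)).eval 0 *
      (1 / (a : ℂ) - (starRingEnd ℂ) (a : ℂ)))
  rw [hval] at h5
  have := neg_abs_le (((2 * q.map (Coef.emb : ℤ →+* ℂ) -
    X * e.map (Coef.emb : ℤ →+* ℂ)).eval 0 / (e.map (Coef.emb : ℤ →+* ℂ)).eval 0 *
      (1 / (a : ℂ) - (starRingEnd ℂ) (a : ℂ))).re)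
  linarith

end Pool.Agent.B5.Nr.E2
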